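import Pool.Agent.Helper45.HP.Defs

/-!
# The counting theorem (project HP)
-/

set_option autoImplicit false

namespace Pool.Agent.HP

open Filter Topology

/-! ### roots -/

private def rt (b X : ℕ) : ℕ := Nat.findGreatest (fun k => k ^ b ≤ X) X

private theorem rt_pow {b : ℕ} (hb : 0 < b) (X : ℕ) : rt b X ^ b ≤ X := by
  have h := Nat.findGreatest_spec (P := fun k => k ^ b ≤ X) (m := 0) (n := X) (Nat.zero_le _)
    (by simp [Nat.ne_of_gt hb])
  exact h

private theorem le_rt {b : ℕ} (hb : 0 < b) {X k : ℕ} (hk : k ^ b ≤ X) : k ≤ rt b X := by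
  refine Nat.le_findGreatest ?_ hk
  exact (Nat.le_self_pow (Nat.ne_of_gt hb) k).trans hk

private theorem rt_iff {b : ℕ} (hb : 0 < b) {X k : ℕ} : k ^ b ≤ X ↔ k ≤ rt b X := by
  refine ⟨le_rt hb, fun h => ?_⟩
  exact (Nat.pow_le_pow_left h b).trans (rt_pow hb X)

private theorem rt_lt {b : ℕ} (hb : 0 < b) {X k : ℕ} (hk : X < k ^ b) : rt b X < k := by
  by_contra h
  exact absurd ((rt_iff hb).mpr (not_lt.mp h)) (not_le.mpr hk)

private theorem rt_le (b : ℕ) (X : ℕ) : rt b X ≤ X :=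
  Nat.findGreatest_le X

private theorem log_le_rt {b : ℕ} (hb : 0 < b) {X : ℕ} (h2 : 2 ≤ rt b X) :
    Real.log X ≤ 2 * b * Real.log (rt b X) := by
  have hX : 0 < X := lt_of_lt_of_le (by omega) (rt_le b X)
  have h1 : X < (rt b X + 1) ^ b := by
    by_contra h
    have := le_rt hb (not_lt.mp h)
    omega
  have h3 : (rt b X + 1 : ℕ) ≤ rt b X ^ 2 := by nlinarith
  have h4 : X ≤ rt b X ^ (2 * b) := by
    calc X ≤ (rt b X + 1) ^ b := h1.le
      _ ≤ (rt b X ^ 2) ^ b := Nat.pow_le_pow_left h3 b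
      _ = rt b X ^ (2 * b) := by rw [← pow_mul]
  have h5 : (X : ℝ) ≤ (rt b X : ℝ) ^ (2 * b) := by exact_mod_cast h4
  calc Real.log X ≤ Real.log ((rt b X : ℝ) ^ (2 * b)) := Real.log_le_log (by exact_mod_cast hX) h5
    _ = 2 * b * Real.log (rt b X) := by rw [Real.log_pow]; push_cast; ring

private theorem rt_tendsto {b : ℕ} (hb : 0 < b) : Tendsto (fun X => rt b X) atTop atTop := by
  rw [tendsto_atTop]
  intro N
  filter_upwards [eventually_ge_atTop (N ^ b)] with X hX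
  exact le_rt hb hX

/-! ### the triples -/

private theorem triple {C₁ C₂ : ℝ} (hC₁ : 0 < C₁) (hC₂ : 0 < C₂)
    (hBT : ∀ m : ℕ, Squarefree m → Odd m → ∀ η : ℕ → ℤ, ∀ u h : ℕ, 2 ≤ h → m ^ 2 ≤ h →
      ∀ S : Finset ℕ, (∀ Q ∈ S, Q.Prime ∧ u < Q ∧ Q ≤ u + h ∧
        ∀ p ∈ m.primeFactors, jacobiSym Q p = η p) →
      (∀ p ∈ m.primeFactors, η p = 1 ∨ η p = -1) →
      (S.card : ℝ) ≤ C₁ * (1 / 2) ^ m.primeFactors.card * (h / Real.log h))
    (hRec : ∀ m : ℕ, Squarefree m → Odd m → ∀ η : ℕ → ℤ, ∀ z X : ℕ, 2 ≤ z → m ^ 2 ≤ z →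
      z ≤ X → ∀ S : Finset ℕ, (∀ Q ∈ S, Q.Prime ∧ z < Q ∧ Q ≤ X ∧
        ∀ p ∈ m.primeFactors, jacobiSym Q p = η p) →
      (∀ p ∈ m.primeFactors, η p = 1 ∨ η p = -1) →
      ∑ Q ∈ S, (1 : ℝ) / Q ≤ C₂ * (1 / 2) ^ m.primeFactors.card * (Real.log X / Real.log z))
    {n X d : ℕ} (hn : 0 < n) (hz : 2 ≤ rt n X) (hd : 0 < d) (m : Fin 3 → ℕ)
    (hsq : ∀ i, Squarefree (m i)) (hodd : ∀ i, Odd (m i)) (hm : ∀ i, (m i) ^ 2 ≤ rt n X)
    (η : Fin 3 → ℕ → ℤ) (hη : ∀ i, ∀ p ∈ (m i).primeFactors, η i p = 1 ∨ η i p = -1)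
    (U : Fin 3 → Finset ℕ) (hU : ∀ i, ∀ Q ∈ U i, Q.Prime ∧ rt n X < Q ∧ Q ≤ X ∧
      ∀ p ∈ (m i).primeFactors, jacobiSym Q p = η i p) :
    ∑ Q₀ ∈ U 0, ∑ Q₁ ∈ U 1, ((((U 2).filter fun Q => d * Q₀ * Q₁ * Q ≤ X).card : ℕ) : ℝ) ≤
      C₁ * C₂ ^ 2 * (2 * n) ^ 3 * (1 / 2) ^ (∑ i, (m i).primeFactors.card) * (X / (d * Real.log X)) := by
  set z := rt n X with hzd
  have hzX : z ≤ X := rt_le n X
  have hlz : 0 < Real.log z := Real.log_pos (by exact_mod_cast (by omega : 1 < z))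
  have hlX : 0 < Real.log X := Real.log_pos (by exact_mod_cast (by omega : 1 < X))
  have hd' : (0 : ℝ) < d := by exact_mod_cast hd
  have hinner : ∀ Q₀ ∈ U 0, ∀ Q₁ ∈ U 1, ((((U 2).filter fun Q => d * Q₀ * Q₁ * Q ≤ X).card : ℕ) : ℝ) ≤
      (C₁ * (1 / 2) ^ (m 2).primeFactors.card * (X / (d * Real.log z))) * ((1 : ℝ) / Q₀ * ((1 : ℝ) / Q₁)) := by
    intro Q₀ h0 Q₁ h1
    have p0 : 0 < Q₀ := (hU 0 Q₀ h0).1.pos
    have p1 : 0 < Q₁ := (hU 1 Q₁ h1).1.pos
    have p0' : (0 : ℝ) < Q₀ := by exact_mod_cast p0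
    have p1' : (0 : ℝ) < Q₁ := by exact_mod_cast p1
    rcases Finset.eq_empty_or_nonempty ((U 2).filter fun Q => d * Q₀ * Q₁ * Q ≤ X) with he | ⟨Q, hQ⟩
    · rw [he]
      simp only [Finset.card_empty, Nat.cast_zero]
      positivity
    · set h := X / (d * Q₀ * Q₁) with hh
      have hpos : 0 < d * Q₀ * Q₁ := by positivity
      have hle : ∀ Q ∈ (U 2).filter (fun Q => d * Q₀ * Q₁ * Q ≤ X), Q ≤ h := by
        intro Q hQ
        rw [hh, Nat.le_div_iff_mul_le hpos, mul_comm]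
        exact (Finset.mem_filter.mp hQ).2
      have hzh : z < h := lt_of_lt_of_le (hU 2 Q (Finset.mem_filter.mp hQ).1).2.1 (hle Q hQ)
      have b1 := hBT (m 2) (hsq 2) (hodd 2) (η 2) 0 h (by omega) ((hm 2).trans hzh.le)
        ((U 2).filter fun Q => d * Q₀ * Q₁ * Q ≤ X) (by
          intro Q hQ
          have h3 := hU 2 Q (Finset.mem_filter.mp hQ).1
          refine ⟨h3.1, h3.1.pos, ?_, h3.2.2.2⟩
          rw [Nat.zero_add]
          exact hle Q hQ) (hη 2)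
      refine b1.trans ?_
      have b2 : (h : ℝ) ≤ X / (d * Q₀ * Q₁) := by
        have := @Nat.cast_div_le ℝ _ _ _ X (d * Q₀ * Q₁)
        rw [hh]
        push_cast at this ⊢
        exact this
      have b3 : Real.log z ≤ Real.log h :=
        Real.log_le_log (by exact_mod_cast (by omega : 0 < z)) (by exact_mod_cast hzh.le)
      have b4 : (h : ℝ) / Real.log h ≤ (X / (d * Q₀ * Q₁)) / Real.log z :=
        div_le_div₀ (by positivity) b2 hlz b3
      calc C₁ * (1 / 2) ^ (m 2).primeFactors.card * (h / Real.log h) ≤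
            C₁ * (1 / 2) ^ (m 2).primeFactors.card * ((X / (d * Q₀ * Q₁)) / Real.log z) :=
            mul_le_mul_of_nonneg_left b4 (by positivity)
        _ = (C₁ * (1 / 2) ^ (m 2).primeFactors.card * (X / (d * Real.log z))) * ((1 : ℝ) / Q₀ * ((1 : ℝ) / Q₁)) := by
            field_simp
  have r0 := hRec (m 0) (hsq 0) (hodd 0) (η 0) z X hz (hm 0) hzX (U 0) (hU 0) (hη 0)
  have r1 := hRec (m 1) (hsq 1) (hodd 1) (η 1) z X hz (hm 1) hzX (U 1) (hU 1) (hη 1)
  have s0 : 0 ≤ ∑ Q ∈ U 0, (1 : ℝ) / Q := Finset.sum_nonneg fun Q _ => by positivity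
  have s1 : 0 ≤ ∑ Q ∈ U 1, (1 : ℝ) / Q := Finset.sum_nonneg fun Q _ => by positivity
  have hlog := log_le_rt hn hz
  rw [← hzd] at hlog
  have hq : Real.log X / Real.log z ≤ 2 * n := by
    rw [div_le_iff₀ hlz]; exact hlog
  have hq0 : 0 ≤ Real.log X / Real.log z := by positivity
  have hn' : (0 : ℝ) < n := by exact_mod_cast hn
  have hinv : X / (d * Real.log z) ≤ 2 * n * (X / (d * Real.log X)) := by
    have e : 2 * (n : ℝ) * (X / (d * Real.log X)) = (X * (2 * n)) / (d * Real.log X) := by ring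
    rw [e, div_le_div_iff₀ (by positivity) (by positivity)]
    have : (X : ℝ) * (d * Real.log X) ≤ X * (d * (2 * n * Real.log z)) := by
      apply mul_le_mul_of_nonneg_left _ (by positivity)
      exact mul_le_mul_of_nonneg_left hlog hd'.le
    calc (X : ℝ) * (d * Real.log X) ≤ X * (d * (2 * n * Real.log z)) := this
      _ = X * (2 * n) * (d * Real.log z) := by ring
  calc ∑ Q₀ ∈ U 0, ∑ Q₁ ∈ U 1, ((((U 2).filter fun Q => d * Q₀ * Q₁ * Q ≤ X).card : ℕ) : ℝ) ≤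
      ∑ Q₀ ∈ U 0, ∑ Q₁ ∈ U 1, (C₁ * (1 / 2) ^ (m 2).primeFactors.card * (X / (d * Real.log z))) *
        ((1 : ℝ) / Q₀ * ((1 : ℝ) / Q₁)) :=
        Finset.sum_le_sum fun Q₀ h0 => Finset.sum_le_sum fun Q₁ h1 => hinner Q₀ h0 Q₁ h1
    _ = (C₁ * (1 / 2) ^ (m 2).primeFactors.card * (X / (d * Real.log z))) *
        ((∑ Q ∈ U 0, (1 : ℝ) / Q) * ∑ Q ∈ U 1, (1 : ℝ) / Q) := by
        rw [Finset.sum_mul_sum, Finset.mul_sum]
        refine Finset.sum_congr rfl fun Q₀ _ => ?_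
        rw [Finset.mul_sum]
    _ ≤ (C₁ * (1 / 2) ^ (m 2).primeFactors.card * (2 * n * (X / (d * Real.log X)))) *
        ((C₂ * (1 / 2) ^ (m 0).primeFactors.card * (2 * n)) * (C₂ * (1 / 2) ^ (m 1).primeFactors.card * (2 * n))) := by
        apply mul_le_mul
        · exact mul_le_mul_of_nonneg_left hinv (by positivity)
        · apply mul_le_mul
          · exact r0.trans (mul_le_mul_of_nonneg_left hq (by positivity))
          · exact r1.trans (mul_le_mul_of_nonneg_left hq (by positivity))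
          · exact s1
          · positivity
        · exact mul_nonneg s0 s1
        · positivity
    _ = C₁ * C₂ ^ 2 * (2 * n) ^ 3 * (1 / 2) ^ (∑ i, (m i).primeFactors.card) * (X / (d * Real.log X)) := by
        rw [Fin.sum_univ_three, pow_add, pow_add]
        ring

/-! ### the covering -/

private def sM (M d : ℕ) : Finset ℕ := d.primeFactors.filter fun p => ¬ p ∣ M

private def md (M b X d : ℕ) : ℕ := ∏ p ∈ d.primeFactors.filter (fun p => ¬ p ∣ M ∧ p ^ b ≤ X), p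

private def mf (M b X d : ℕ) (τ : ℕ → Opt) (i : Fin 3) : ℕ :=
  ∏ p ∈ d.primeFactors.filter (fun p => (¬ p ∣ M ∧ p ^ b ≤ X) ∧ (τ p).1 ≠ i), p

private def eta (M d : ℕ) (τ : ℕ → Opt) (i : Fin 3) (p : ℕ) : ℤ :=
  if ((τ p).2 i : ℤ) * jacobiSym (part M τ d i : ℕ) p = 1 then 1 else -1

private def UU (M b n X d : ℕ) (τ : ℕ → Opt) (i : Fin 3) : Finset ℕ :=
  (Finset.range (X + 1)).filter fun Q => Q.Prime ∧ rt n X < Q ∧
    ∀ p ∈ (mf M b X d τ i).primeFactors, jacobiSym Q p = eta M d τ i p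

private def ext (s : Finset ℕ) (f : ∀ p ∈ s, Opt) (p : ℕ) : Opt := if h : p ∈ s then f p h else (0, fun _ => 1)

private def DDs (M b n X : ℕ) : Finset ℕ :=
  (Finset.range (X + 1)).filter fun d => Squarefree d ∧ (md M b X d) ^ (2 * n) ≤ X

private theorem mf_primeFactors (M b X d : ℕ) (τ : ℕ → Opt) (i : Fin 3) : (mf M b X d τ i).primeFactors =
    d.primeFactors.filter (fun p => (¬ p ∣ M ∧ p ^ b ≤ X) ∧ (τ p).1 ≠ i) := by
  unfold mf
  exact Nat.primeFactors_prod fun p hp => Nat.prime_of_mem_primeFactors (Finset.mem_filter.mp hp).1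

private theorem sqf_prod (T : Finset ℕ) (h : ∀ p ∈ T, p.Prime) : Squarefree (∏ p ∈ T, p) := by
  induction T using Finset.induction_on with
  | empty => simp
  | insert a T ha ih =>
    rw [Finset.prod_insert ha]
    have hT : ∀ p ∈ T, p.Prime := fun p hp => h p (Finset.mem_insert_of_mem hp)
    have hap : a.Prime := h a (Finset.mem_insert_self a T)
    rw [Nat.squarefree_mul]
    · exact ⟨hap.squarefree, ih hT⟩
    · rw [Nat.coprime_prod_right_iff]
      intro p hp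
      rw [Nat.coprime_primes hap (hT p hp)]
      rintro rfl
      exact ha hp

private theorem mf_sqf (M b X d : ℕ) (τ : ℕ → Opt) (i : Fin 3) : Squarefree (mf M b X d τ i) :=
  sqf_prod _ fun _ hp => Nat.prime_of_mem_primeFactors (Finset.mem_filter.mp hp).1

private theorem mf_odd {M : ℕ} (h2 : 2 ∣ M) (b X d : ℕ) (τ : ℕ → Opt) (i : Fin 3) : Odd (mf M b X d τ i) := by
  unfold mf
  refine Finset.prod_induction _ Odd (fun _ _ => Odd.mul) odd_one fun p hp => ?_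
  have h := Finset.mem_filter.mp hp
  have hp' := Nat.prime_of_mem_primeFactors h.1
  rcases hp'.eq_two_or_odd' with h3 | h3
  · exact absurd (h3 ▸ h2) h.2.1.1
  · exact h3

private theorem md_pos (M b X d : ℕ) : 0 < md M b X d :=
  Finset.prod_pos fun _ hp => (Nat.prime_of_mem_primeFactors (Finset.mem_filter.mp hp).1).pos

private theorem mf_le_md (M b X d : ℕ) (τ : ℕ → Opt) (i : Fin 3) : mf M b X d τ i ≤ md M b X d := by
  refine Nat.le_of_dvd (md_pos M b X d) (Finset.prod_dvd_prod_of_subset _ _ _ ?_)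
  intro p hp
  have h := Finset.mem_filter.mp hp
  exact Finset.mem_filter.mpr ⟨h.1, h.2.1⟩

private theorem mf_sq_le {n : ℕ} (hn : 0 < n) {M b X d : ℕ} (h : (md M b X d) ^ (2 * n) ≤ X) (τ : ℕ → Opt) (i : Fin 3) :
    (mf M b X d τ i) ^ 2 ≤ rt n X := by
  apply le_rt hn
  rw [← pow_mul]
  exact (Nat.pow_le_pow_left (mf_le_md M b X d τ i) _).trans h

private theorem card_sum (M b X d : ℕ) (τ : ℕ → Opt) : ∑ i, (mf M b X d τ i).primeFactors.card =
    2 * (d.primeFactors.filter (fun p => ¬ p ∣ M ∧ p ^ b ≤ X)).card := by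
  simp only [mf_primeFactors, Finset.card_filter]
  rw [Finset.sum_comm, Finset.mul_sum]
  refine Finset.sum_congr rfl fun p _ => ?_
  by_cases hP : ¬ p ∣ M ∧ p ^ b ≤ X
  · simp only [hP, true_and, not_false_eq_true, and_self, if_true]
    generalize (τ p).1 = a
    revert a
    decide
  · simp [hP]

private theorem part_congr {M d : ℕ} {τ τ' : ℕ → Opt} (h : ∀ p ∈ d.primeFactors, ¬ p ∣ M → τ p = τ' p) (j : Fin 3) :
    part M τ d j = part M τ' d j := by
  unfold part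
  congr 1
  refine Finset.filter_congr fun p hp => ?_
  constructor
  · rintro ⟨h1, h2⟩
    exact ⟨h1, by rw [← h p hp h1]; exact h2⟩
  · rintro ⟨h1, h2⟩
    exact ⟨h1, by rw [h p hp h1]; exact h2⟩

private theorem mf_congr {M b X d : ℕ} {τ τ' : ℕ → Opt} (h : ∀ p ∈ d.primeFactors, ¬ p ∣ M → τ p = τ' p) (j : Fin 3) :
    mf M b X d τ j = mf M b X d τ' j := by
  unfold mf
  congr 1
  refine Finset.filter_congr fun p hp => ?_
  constructor
  · rintro ⟨h1, h2⟩
    exact ⟨h1, by rw [← h p hp h1.1]; exact h2⟩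
  · rintro ⟨h1, h2⟩
    exact ⟨h1, by rw [h p hp h1.1]; exact h2⟩

private theorem sign_lemma {u J₁ J₂ : ℤ} (hu : u = 1 ∨ u = -1) (h1 : J₁ = 0 ∨ J₁ = 1 ∨ J₁ = -1)
    (h2 : J₂ = 0 ∨ J₂ = 1 ∨ J₂ = -1) (h : J₁ * J₂ = u) : J₂ = if u * J₁ = 1 then 1 else -1 := by
  rcases hu with rfl | rfl <;> rcases h1 with rfl | rfl | rfl <;> rcases h2 with rfl | rfl | rfl <;> simp_all

private theorem cover {M : ℕ} {V : ℕ → Finset Opt} {Qs : Fin 3 → Set ℕ}
    (hQs : ∀ j, ∀ p ∈ Qs j, p.Prime ∧ ¬ p ∣ M ∧ ∀ o ∈ V p, o.1 = j) {n b X c : ℕ} (hn : 0 < n)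
    (hc0 : 0 < c) (hcX : c ≤ X) (hsq : Squarefree c) (hbad : ABad M V c) (hm : (md M b X c) ^ (2 * n) ≤ X)
    (Q : Fin 3 → ℕ) (hQ : ∀ i, Q i ∈ Qs i ∧ X < Q i ^ n ∧ Q i ∣ c) :
    ∃ d ∈ DDs M b n X, ∃ f ∈ Finset.pi (sM M d) (fun p => V p),
      ∃ Q₀ ∈ UU M b n X d (ext _ f) 0, ∃ Q₁ ∈ UU M b n X d (ext _ f) 1,
        ∃ Q₂ ∈ (UU M b n X d (ext _ f) 2).filter (fun Q => d * Q₀ * Q₁ * Q ≤ X), d * Q₀ * Q₁ * Q₂ = c := by
  obtain ⟨t, ht⟩ := hbad
  have hpr : ∀ i, (Q i).Prime := fun i => (hQs i _ (hQ i).1).1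
  have hQc : ∀ i, Q i ∈ c.primeFactors := fun i =>
    Nat.mem_primeFactors.mpr ⟨hpr i, (hQ i).2.2, hc0.ne'⟩
  have htQ : ∀ i, (t (Q i)).1 = i := fun i =>
    (hQs i _ (hQ i).1).2.2 _ (ht _ (hQc i) (hQs i _ (hQ i).1).2.1).1
  have hinj : ∀ i j, Q i = Q j → i = j := by
    intro i j h
    rw [← htQ i, ← htQ j, h]
  have h01 : Q 0 ≠ Q 1 := fun h => absurd (hinj 0 1 h) (by decide)
  have h02 : Q 0 ≠ Q 2 := fun h => absurd (hinj 0 2 h) (by decide)
  have h12 : Q 1 ≠ Q 2 := fun h => absurd (hinj 1 2 h) (by decide)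
  have d1 : Q 0 * Q 1 ∣ c := Nat.Coprime.mul_dvd_of_dvd_of_dvd
    ((Nat.coprime_primes (hpr 0) (hpr 1)).mpr h01) (hQ 0).2.2 (hQ 1).2.2
  have d2 : Q 0 * Q 1 * Q 2 ∣ c := by
    refine Nat.Coprime.mul_dvd_of_dvd_of_dvd ?_ d1 (hQ 2).2.2
    exact Nat.Coprime.mul_left ((Nat.coprime_primes (hpr 0) (hpr 2)).mpr h02)
      ((Nat.coprime_primes (hpr 1) (hpr 2)).mpr h12)
  obtain ⟨d, hd⟩ := d2
  have hd0 : 0 < d := by
    rcases Nat.eq_zero_or_pos d with h | h
    · rw [h] at hd; simp at hd; omega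
    · exact h
  have hdc : d ∣ c := ⟨Q 0 * Q 1 * Q 2, by rw [hd]; ring⟩
  have hdX : d ≤ X := (Nat.le_of_dvd hc0 hdc).trans hcX
  have hsub : d.primeFactors ⊆ c.primeFactors := Nat.primeFactors_mono hdc hc0.ne'
  have hmem : ∀ p, p ∈ c.primeFactors ↔ (∃ i, p = Q i) ∨ p ∈ d.primeFactors := by
    intro p
    constructor
    · intro hp
      have hp' := Nat.prime_of_mem_primeFactors hp
      have hpc : p ∣ Q 0 * Q 1 * Q 2 * d := by rw [← hd]; exact Nat.dvd_of_mem_primeFactors hp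
      rcases (Nat.Prime.dvd_mul hp').mp hpc with h | h
      · rcases (Nat.Prime.dvd_mul hp').mp h with h | h
        · rcases (Nat.Prime.dvd_mul hp').mp h with h | h
          · exact Or.inl ⟨0, (Nat.prime_dvd_prime_iff_eq hp' (hpr 0)).mp h⟩
          · exact Or.inl ⟨1, (Nat.prime_dvd_prime_iff_eq hp' (hpr 1)).mp h⟩
        · exact Or.inl ⟨2, (Nat.prime_dvd_prime_iff_eq hp' (hpr 2)).mp h⟩
      · exact Or.inr (Nat.mem_primeFactors.mpr ⟨hp', h, hd0.ne'⟩)
    · rintro (⟨i, rfl⟩ | h)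
      · exact hQc i
      · exact hsub h
  have hQd : ∀ i, Q i ∉ d.primeFactors := by
    intro i h
    have h1 : Q i ∣ d := Nat.dvd_of_mem_primeFactors h
    have h2 : Q i * Q i ∣ c := by
      rw [hd]
      refine Nat.mul_dvd_mul ?_ h1
      fin_cases i
      · exact ⟨Q 1 * Q 2, by simp; ring⟩
      · exact ⟨Q 0 * Q 2, by simp; ring⟩
      · exact ⟨Q 0 * Q 1, by simp; ring⟩
    have := hsq _ h2
    exact (hpr i).one_lt.ne' (Nat.isUnit_iff.mp this)
  have hpart : ∀ j, part M t c j = part M t d j * Q j := by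
    intro j
    unfold part
    have e : c.primeFactors.filter (fun p => ¬ p ∣ M ∧ (t p).1 = j) =
        insert (Q j) (d.primeFactors.filter (fun p => ¬ p ∣ M ∧ (t p).1 = j)) := by
      ext p
      rw [Finset.mem_filter, Finset.mem_insert, Finset.mem_filter, hmem p]
      constructor
      · rintro ⟨⟨i, rfl⟩ | h, h2, h3⟩
        · left
          rw [htQ i] at h3
          rw [h3]
        · exact Or.inr ⟨h, h2, h3⟩
      · rintro (rfl | ⟨h, h2, h3⟩)
        · exact ⟨Or.inl ⟨j, rfl⟩, (hQs j _ (hQ j).1).2.1, htQ j⟩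
        · exact ⟨Or.inr h, h2, h3⟩
    rw [e, Finset.prod_insert, mul_comm]
    intro h
    exact hQd j (Finset.mem_filter.mp h).1
  have hJ : ∀ p ∈ d.primeFactors, ¬ p ∣ M → ∀ j, j ≠ (t p).1 →
      jacobiSym (Q j) p = eta M d t j p := by
    intro p hp hpM j hj
    have h1 := (ht p (hsub hp) hpM).2 j hj
    rw [hpart j, Nat.cast_mul, jacobiSym.mul_left] at h1
    unfold eta
    refine sign_lemma ?_ (jacobiSym.trichotomy _ _) (jacobiSym.trichotomy _ _) h1
    rcases Int.units_eq_one_or ((t p).2 j) with h | h <;> simp [h]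
  set f : ∀ p ∈ sM M d, Opt := fun p _ => t p with hf
  have hext : ∀ p ∈ d.primeFactors, ¬ p ∣ M → ext _ f p = t p := by
    intro p hp hpM
    unfold ext
    rw [dif_pos (show p ∈ sM M d from Finset.mem_filter.mpr ⟨hp, hpM⟩)]
  have hU : ∀ i, Q i ∈ UU M b n X d (ext _ f) i := by
    intro i
    refine Finset.mem_filter.mpr ⟨Finset.mem_range.mpr ?_, hpr i, rt_lt hn (hQ i).2.1, ?_⟩
    · exact Nat.lt_succ_of_le ((Nat.le_of_dvd hc0 (hQ i).2.2).trans hcX)
    · intro p hp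
      rw [mf_congr hext i, mf_primeFactors] at hp
      obtain ⟨h1, h2, h3⟩ := Finset.mem_filter.mp hp
      rw [hJ p h1 h2.1 i (Ne.symm h3)]
      unfold eta
      rw [hext p h1 h2.1, part_congr hext i]
  refine ⟨d, ?_, f, ?_, Q 0, hU 0, Q 1, hU 1, Q 2, Finset.mem_filter.mpr ⟨hU 2, ?_⟩, ?_⟩
  · refine Finset.mem_filter.mpr ⟨Finset.mem_range.mpr (Nat.lt_succ_of_le hdX), hsq.squarefree_of_dvd hdc, ?_⟩
    refine (Nat.pow_le_pow_left ?_ _).trans hm
    refine Nat.le_of_dvd (md_pos M b X c) (Finset.prod_dvd_prod_of_subset _ _ _ ?_)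
    exact Finset.filter_subset_filter _ hsub
  · rw [Finset.mem_pi]
    intro p hp
    have h := Finset.mem_filter.mp hp
    exact (ht p (hsub h.1) h.2).1
  · calc d * Q 0 * Q 1 * Q 2 = c := by rw [hd]; ring
      _ ≤ X := hcX
  · rw [hd]; ring

/-! ### counting with the covering -/

private theorem eta_unit (M d : ℕ) (τ : ℕ → Opt) (i : Fin 3) (p : ℕ) : eta M d τ i p = 1 ∨ eta M d τ i p = -1 := by
  unfold eta
  split_ifs <;> simp

private theorem main_count {C₁ C₂ : ℝ} (hC₁ : 0 < C₁) (hC₂ : 0 < C₂)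
    (hBT : ∀ m : ℕ, Squarefree m → Odd m → ∀ η : ℕ → ℤ, ∀ u h : ℕ, 2 ≤ h → m ^ 2 ≤ h →
      ∀ S : Finset ℕ, (∀ Q ∈ S, Q.Prime ∧ u < Q ∧ Q ≤ u + h ∧
        ∀ p ∈ m.primeFactors, jacobiSym Q p = η p) →
      (∀ p ∈ m.primeFactors, η p = 1 ∨ η p = -1) →
      (S.card : ℝ) ≤ C₁ * (1 / 2) ^ m.primeFactors.card * (h / Real.log h))
    (hRec : ∀ m : ℕ, Squarefree m → Odd m → ∀ η : ℕ → ℤ, ∀ z X : ℕ, 2 ≤ z → m ^ 2 ≤ z →
      z ≤ X → ∀ S : Finset ℕ, (∀ Q ∈ S, Q.Prime ∧ z < Q ∧ Q ≤ X ∧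
        ∀ p ∈ m.primeFactors, jacobiSym Q p = η p) →
      (∀ p ∈ m.primeFactors, η p = 1 ∨ η p = -1) →
      ∑ Q ∈ S, (1 : ℝ) / Q ≤ C₂ * (1 / 2) ^ m.primeFactors.card * (Real.log X / Real.log z))
    {M : ℕ} (h2M : 2 ∣ M) {V : ℕ → Finset Opt} {Qs : Fin 3 → Set ℕ}
    (hQs : ∀ j, ∀ p ∈ Qs j, p.Prime ∧ ¬ p ∣ M ∧ ∀ o ∈ V p, o.1 = j) {n b X : ℕ} (hn : 0 < n)
    (hz : 2 ≤ rt n X) (S : Finset ℕ)
    (hS : ∀ c ∈ S, 0 < c ∧ c ≤ X ∧ Squarefree c ∧ ABad M V c ∧ (md M b X c) ^ (2 * n) ≤ X ∧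
      ∃ Q : Fin 3 → ℕ, ∀ i, Q i ∈ Qs i ∧ X < Q i ^ n ∧ Q i ∣ c) :
    (S.card : ℝ) ≤ C₁ * C₂ ^ 2 * (2 * n) ^ 3 * (X / Real.log X) *
      ∑ d ∈ DDs M b n X, ((∏ p ∈ sM M d, (V p).card : ℕ) : ℝ) *
        (1 / 4) ^ (d.primeFactors.filter (fun p => ¬ p ∣ M ∧ p ^ b ≤ X)).card * (1 / d) := by
  classical
  have hsub : S ⊆ (DDs M b n X).biUnion fun d => (Finset.pi (sM M d) (fun p => V p)).biUnion fun f =>
      (UU M b n X d (ext _ f) 0).biUnion fun Q₀ => (UU M b n X d (ext _ f) 1).biUnion fun Q₁ =>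
        ((UU M b n X d (ext _ f) 2).filter (fun Q => d * Q₀ * Q₁ * Q ≤ X)).image fun Q₂ => d * Q₀ * Q₁ * Q₂ := by
    intro c hc
    obtain ⟨h0, hX, hsq, hb, hm, Q, hQ⟩ := hS c hc
    obtain ⟨d, hd, f, hf, Q₀, h₀, Q₁, h₁, Q₂, h₂, e⟩ := cover hQs hn h0 hX hsq hb hm Q hQ
    simp only [Finset.mem_biUnion, Finset.mem_image]
    exact ⟨d, hd, f, hf, Q₀, h₀, Q₁, h₁, Q₂, h₂, e⟩
  have hcard : (S.card : ℝ) ≤ ∑ d ∈ DDs M b n X, ∑ f ∈ Finset.pi (sM M d) (fun p => V p),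
      ∑ Q₀ ∈ UU M b n X d (ext _ f) 0, ∑ Q₁ ∈ UU M b n X d (ext _ f) 1,
        ((((UU M b n X d (ext _ f) 2).filter (fun Q => d * Q₀ * Q₁ * Q ≤ X)).card : ℕ) : ℝ) := by
    have h1 : S.card ≤ ∑ d ∈ DDs M b n X, ∑ f ∈ Finset.pi (sM M d) (fun p => V p),
      ∑ Q₀ ∈ UU M b n X d (ext _ f) 0, ∑ Q₁ ∈ UU M b n X d (ext _ f) 1,
        ((UU M b n X d (ext _ f) 2).filter (fun Q => d * Q₀ * Q₁ * Q ≤ X)).card := by
      refine (Finset.card_le_card hsub).trans (Finset.card_biUnion_le.trans ?_)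
      refine Finset.sum_le_sum fun d _ => Finset.card_biUnion_le.trans ?_
      refine Finset.sum_le_sum fun f _ => Finset.card_biUnion_le.trans ?_
      refine Finset.sum_le_sum fun Q₀ _ => Finset.card_biUnion_le.trans ?_
      exact Finset.sum_le_sum fun Q₁ _ => Finset.card_image_le
    exact_mod_cast h1
  refine hcard.trans ?_
  rw [Finset.mul_sum]
  refine Finset.sum_le_sum fun d hd => ?_
  have hd' := Finset.mem_filter.mp hd
  have hd0 : 0 < d := Nat.pos_of_ne_zero fun h => by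
    rw [h] at hd'
    exact not_squarefree_zero hd'.2.1
  have hf : ∀ f ∈ Finset.pi (sM M d) (fun p => V p), ∑ Q₀ ∈ UU M b n X d (ext _ f) 0, ∑ Q₁ ∈ UU M b n X d (ext _ f) 1,
        ((((UU M b n X d (ext _ f) 2).filter (fun Q => d * Q₀ * Q₁ * Q ≤ X)).card : ℕ) : ℝ) ≤
      C₁ * C₂ ^ 2 * (2 * n) ^ 3 * (1 / 4) ^ (d.primeFactors.filter (fun p => ¬ p ∣ M ∧ p ^ b ≤ X)).card *
        (X / (d * Real.log X)) := by
    intro f _
    have h1 := triple hC₁ hC₂ hBT hRec hn hz hd0 (fun i => mf M b X d (ext _ f) i)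
      (fun i => mf_sqf M b X d _ i) (fun i => mf_odd h2M b X d _ i) (fun i => mf_sq_le hn hd'.2.2 _ i)
      (fun i => eta M d (ext _ f) i) (fun i p _ => eta_unit M d _ i p) (fun i => UU M b n X d (ext _ f) i)
      (by
        intro i Q hQ
        obtain ⟨g1, g2, g3, g4⟩ := Finset.mem_filter.mp hQ
        exact ⟨g2, g3, Nat.lt_succ_iff.mp (Finset.mem_range.mp g1), g4⟩)
    refine h1.trans (le_of_eq ?_)
    rw [card_sum, pow_mul]
    norm_num
  calc ∑ f ∈ Finset.pi (sM M d) (fun p => V p), ∑ Q₀ ∈ UU M b n X d (ext _ f) 0, ∑ Q₁ ∈ UU M b n X d (ext _ f) 1,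
        ((((UU M b n X d (ext _ f) 2).filter (fun Q => d * Q₀ * Q₁ * Q ≤ X)).card : ℕ) : ℝ) ≤
      ∑ f ∈ Finset.pi (sM M d) (fun p => V p), C₁ * C₂ ^ 2 * (2 * n) ^ 3 *
        (1 / 4) ^ (d.primeFactors.filter (fun p => ¬ p ∣ M ∧ p ^ b ≤ X)).card * (X / (d * Real.log X)) :=
        Finset.sum_le_sum hf
    _ = C₁ * C₂ ^ 2 * (2 * n) ^ 3 * (X / Real.log X) *
      (((∏ p ∈ sM M d, (V p).card : ℕ) : ℝ) *
        (1 / 4) ^ (d.primeFactors.filter (fun p => ¬ p ∣ M ∧ p ^ b ≤ X)).card * (1 / d)) := by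
        rw [Finset.sum_const, Finset.card_pi, nsmul_eq_mul]
        have hdne : (d : ℝ) ≠ 0 := by exact_mod_cast hd0.ne'
        field_simp

/-! ### the Euler product -/

private noncomputable def ww (M b X : ℕ) (V : ℕ → Finset Opt) (p : ℕ) : ℝ :=
  (if p ∣ M then 1 else ((V p).card : ℝ) * (if p ^ b ≤ X then 1 / 4 else 1)) / p

private theorem ww_nonneg (M b X : ℕ) (V : ℕ → Finset Opt) (p : ℕ) : 0 ≤ ww M b X V p := by
  unfold ww
  split_ifs <;> positivity

private theorem term_eq {M b X d : ℕ} (V : ℕ → Finset Opt) (hd : Squarefree d) :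
    ((∏ p ∈ sM M d, (V p).card : ℕ) : ℝ) *
        (1 / 4) ^ (d.primeFactors.filter (fun p => ¬ p ∣ M ∧ p ^ b ≤ X)).card * (1 / d) =
      ∏ p ∈ d.primeFactors, ww M b X V p := by
  have e1 : ((∏ p ∈ sM M d, (V p).card : ℕ) : ℝ) = ∏ p ∈ d.primeFactors, (if ¬ p ∣ M then ((V p).card : ℝ) else 1) := by
    unfold sM
    rw [Nat.cast_prod, Finset.prod_filter]
  have e2 : ((1 : ℝ) / 4) ^ (d.primeFactors.filter (fun p => ¬ p ∣ M ∧ p ^ b ≤ X)).card =
      ∏ p ∈ d.primeFactors, (if ¬ p ∣ M ∧ p ^ b ≤ X then (1 : ℝ) / 4 else 1) := by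
    rw [← Finset.prod_const, Finset.prod_filter]
  have e3 : (1 : ℝ) / d = ∏ p ∈ d.primeFactors, (1 : ℝ) / p := by
    rw [Finset.prod_div_distrib, Finset.prod_const_one, ← Nat.cast_prod, Nat.prod_primeFactors_of_squarefree hd]
  rw [e1, e2, e3, ← Finset.prod_mul_distrib, ← Finset.prod_mul_distrib]
  refine Finset.prod_congr rfl fun p _ => ?_
  unfold ww
  by_cases h1 : p ∣ M
  · simp [h1]
  · by_cases h2 : p ^ b ≤ X
    · simp [h1, h2]; ring
    · simp [h1, h2]; ring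

private theorem euler (M b n X : ℕ) (V : ℕ → Finset Opt) :
    ∑ d ∈ DDs M b n X, ((∏ p ∈ sM M d, (V p).card : ℕ) : ℝ) *
        (1 / 4) ^ (d.primeFactors.filter (fun p => ¬ p ∣ M ∧ p ^ b ≤ X)).card * (1 / d) ≤
      Real.exp (∑ p ∈ (Finset.range (X + 1)).filter Nat.Prime, ww M b X V p) := by
  have h1 : ∑ d ∈ DDs M b n X, ((∏ p ∈ sM M d, (V p).card : ℕ) : ℝ) *
        (1 / 4) ^ (d.primeFactors.filter (fun p => ¬ p ∣ M ∧ p ^ b ≤ X)).card * (1 / d) =
      ∑ s ∈ (DDs M b n X).image Nat.primeFactors, ∏ p ∈ s, ww M b X V p := by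
    rw [Finset.sum_image]
    · refine Finset.sum_congr rfl fun d hd => ?_
      exact term_eq V (Finset.mem_filter.mp hd).2.1
    · intro d hd d' hd' h
      have g1 := Nat.prod_primeFactors_of_squarefree (Finset.mem_filter.mp (Finset.mem_coe.mp hd)).2.1
      have g2 := Nat.prod_primeFactors_of_squarefree (Finset.mem_filter.mp (Finset.mem_coe.mp hd')).2.1
      rw [← g1, ← g2, h]
  rw [h1]
  have h2 : (DDs M b n X).image Nat.primeFactors ⊆ ((Finset.range (X + 1)).filter Nat.Prime).powerset := by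
    intro s hs
    obtain ⟨d, hd, rfl⟩ := Finset.mem_image.mp hs
    rw [Finset.mem_powerset]
    intro p hp
    have hd' := Finset.mem_filter.mp hd
    have hd0 : 0 < d := Nat.pos_of_ne_zero fun h => by
      rw [h] at hd'
      exact not_squarefree_zero hd'.2.1
    refine Finset.mem_filter.mpr ⟨Finset.mem_range.mpr ?_, Nat.prime_of_mem_primeFactors hp⟩
    have g1 := Nat.le_of_dvd hd0 (Nat.dvd_of_mem_primeFactors hp)
    have g2 := Finset.mem_range.mp hd'.1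
    omega
  calc ∑ s ∈ (DDs M b n X).image Nat.primeFactors, ∏ p ∈ s, ww M b X V p ≤
      ∑ s ∈ ((Finset.range (X + 1)).filter Nat.Prime).powerset, ∏ p ∈ s, ww M b X V p :=
        Finset.sum_le_sum_of_subset_of_nonneg h2 fun s _ _ => Finset.prod_nonneg fun p _ => ww_nonneg M b X V p
    _ = ∏ p ∈ (Finset.range (X + 1)).filter Nat.Prime, (1 + ww M b X V p) := by
        rw [Finset.prod_one_add]
    _ ≤ ∏ p ∈ (Finset.range (X + 1)).filter Nat.Prime, Real.exp (ww M b X V p) := by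
        refine Finset.prod_le_prod (fun p _ => add_nonneg zero_le_one (ww_nonneg M b X V p)) fun p _ => ?_
        rw [add_comm]
        exact Real.add_one_le_exp _
    _ = _ := by rw [Real.exp_sum]

private theorem card_opt (s : Finset Opt) : (s.card : ℝ) ≤ 24 := by
  have h : s.card ≤ Fintype.card Opt := Finset.card_le_univ s
  have e : Fintype.card Opt = 24 := by
    simp [Opt, Fintype.card_prod, Fintype.card_units_int]
  rw [e] at h
  exact_mod_cast h

private theorem ww_sum {C : ℝ} (hMert : ∀ x : ℕ, 2 ≤ x → |∑ p ∈ PP 1 x, (1 : ℝ) / p - Real.log (Real.log x)| ≤ C)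
    {M : ℕ} (hM : M ≠ 0) {b X : ℕ} (hb : 0 < b) (V : ℕ → Finset Opt) (hz : 2 ≤ rt b X) :
    ∑ p ∈ (Finset.range (X + 1)).filter Nat.Prime, ww M b X V p ≤
      M + (Real.log (Real.log X) + C - ∑ p ∈ PP M (rt b X), (1 - ((V p).card : ℝ) / 4) / p) +
        24 * (Real.log (2 * b) + 2 * C) := by
  set z := rt b X with hzd
  have hzX : z ≤ X := rt_le b X
  set P := (Finset.range (X + 1)).filter Nat.Prime with hP
  have hlz : 0 < Real.log z := Real.log_pos (by exact_mod_cast (by omega : 1 < z))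
  have hlX : 0 < Real.log X := Real.log_pos (by exact_mod_cast (by omega : 1 < X))
  have hsplit : ∀ p ∈ P, ww M b X V p ≤ (if p ∣ M then (1 : ℝ) else 0) +
      (if ¬ p ∣ M ∧ p ≤ z then ((V p).card : ℝ) / 4 / p else 0) +
      (if z < p then (24 : ℝ) / p else 0) := by
    intro p hp
    have hp' := (Finset.mem_filter.mp hp).2
    have hp1 : (1 : ℝ) ≤ p := by exact_mod_cast hp'.one_lt.le
    have hp0 : (0 : ℝ) < p := by linarith
    unfold ww
    by_cases h1 : p ∣ M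
    · simp only [h1, if_true, not_true_eq_false, false_and, if_false]
      have : (1 : ℝ) / p ≤ 1 := by rw [div_le_one hp0]; exact hp1
      have h3 : (0 : ℝ) ≤ if z < p then 24 / (p : ℝ) else 0 := by split_ifs <;> positivity
      linarith
    · by_cases h2 : p ≤ z
      · have h3 : p ^ b ≤ X := (rt_iff hb).mpr h2
        have h4 : ¬ z < p := not_lt.mpr h2
        simp only [h1, h2, h3, h4, if_false, not_false_eq_true, and_self, if_true]
        apply le_of_eq; ring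
      · have h3 : ¬ p ^ b ≤ X := fun h => h2 ((rt_iff hb).mp h)
        have h4 : z < p := not_le.mp h2
        simp only [h1, h2, h3, h4, if_false, and_false, if_true, mul_one, zero_add]
        exact div_le_div_of_nonneg_right (card_opt _) hp0.le
  refine (Finset.sum_le_sum hsplit).trans ?_
  rw [Finset.sum_add_distrib, Finset.sum_add_distrib]
  have a1 : ∑ p ∈ P, (if p ∣ M then (1 : ℝ) else 0) ≤ M := by
    rw [← Finset.sum_filter, Finset.sum_const, nsmul_eq_mul, mul_one]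
    have h : P.filter (fun p => p ∣ M) ⊆ Finset.Icc 1 M := by
      intro p hp
      have g := Finset.mem_filter.mp hp
      exact Finset.mem_Icc.mpr ⟨(Finset.mem_filter.mp g.1).2.one_lt.le, Nat.le_of_dvd (Nat.pos_of_ne_zero hM) g.2⟩
    have h' := Finset.card_le_card h
    rw [Nat.card_Icc] at h'
    exact_mod_cast (by simpa using h')
  have ePP : P.filter (fun p => ¬ p ∣ M ∧ p ≤ z) = PP M z := by
    ext p
    simp only [hP, PP, Finset.mem_filter, Finset.mem_range]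
    constructor
    · rintro ⟨⟨_, h2⟩, h3, h4⟩
      exact ⟨by omega, h2, h3⟩
    · rintro ⟨h1, h2, h3⟩
      exact ⟨⟨by omega, h2⟩, h3, by omega⟩
  have a2 : ∑ p ∈ P, (if ¬ p ∣ M ∧ p ≤ z then ((V p).card : ℝ) / 4 / p else 0) ≤
      Real.log (Real.log X) + C - ∑ p ∈ PP M z, (1 - ((V p).card : ℝ) / 4) / p := by
    rw [← Finset.sum_filter, ePP]
    have h1 : ∑ p ∈ PP M z, ((V p).card : ℝ) / 4 / p =
        ∑ p ∈ PP M z, (1 : ℝ) / p - ∑ p ∈ PP M z, (1 - ((V p).card : ℝ) / 4) / p := by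
      rw [← Finset.sum_sub_distrib]
      refine Finset.sum_congr rfl fun p _ => ?_
      ring
    rw [h1]
    have h2 : ∑ p ∈ PP M z, (1 : ℝ) / p ≤ ∑ p ∈ PP 1 z, (1 : ℝ) / p := by
      refine Finset.sum_le_sum_of_subset_of_nonneg ?_ fun p _ _ => by positivity
      intro p hp
      simp only [PP, Finset.mem_filter] at hp ⊢
      exact ⟨hp.1, hp.2.1, fun h => hp.2.1.one_lt.ne' (Nat.dvd_one.mp h)⟩
    have h3 := (abs_le.mp (hMert z hz)).2
    have h4 : Real.log (Real.log z) ≤ Real.log (Real.log X) := by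
      apply Real.log_le_log hlz
      exact Real.log_le_log (by exact_mod_cast (by omega : 0 < z)) (by exact_mod_cast hzX)
    linarith
  have a3 : ∑ p ∈ P, (if z < p then (24 : ℝ) / p else 0) ≤ 24 * (Real.log (2 * b) + 2 * C) := by
    rw [← Finset.sum_filter]
    have e1 : P.filter (fun p => z < p) = PP 1 X \ PP 1 z := by
      ext p
      simp only [hP, PP, Finset.mem_filter, Finset.mem_range, Finset.mem_sdiff]
      constructor
      · rintro ⟨⟨h1, h2⟩, h3⟩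
        exact ⟨⟨h1, h2, fun h => h2.one_lt.ne' (Nat.dvd_one.mp h)⟩, fun h => by omega⟩
      · rintro ⟨⟨h1, h2, h2'⟩, h3⟩
        refine ⟨⟨h1, h2⟩, ?_⟩
        by_contra h
        exact h3 ⟨by omega, h2, h2'⟩
    have hsub : PP 1 z ⊆ PP 1 X := by
      intro p hp
      simp only [PP, Finset.mem_filter, Finset.mem_range] at hp ⊢
      exact ⟨by omega, hp.2⟩
    have e2 : ∑ p ∈ PP 1 X \ PP 1 z, (24 : ℝ) / p =
        24 * (∑ p ∈ PP 1 X, (1 : ℝ) / p - ∑ p ∈ PP 1 z, (1 : ℝ) / p) := by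
      rw [← Finset.sum_sdiff hsub, add_sub_cancel_right, Finset.mul_sum]
      refine Finset.sum_congr rfl fun p _ => ?_
      ring
    rw [e1, e2]
    apply mul_le_mul_of_nonneg_left _ (by norm_num)
    have h1 := (abs_le.mp (hMert z hz)).1
    have h2 := (abs_le.mp (hMert X (by omega))).2
    have h3 := log_le_rt hb hz
    rw [← hzd] at h3
    have hb' : (0 : ℝ) < b := by exact_mod_cast hb
    have h4 : Real.log (Real.log X) ≤ Real.log (2 * b) + Real.log (Real.log z) := by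
      rw [← Real.log_mul (by positivity) hlz.ne']
      exact Real.log_le_log hlX h3
    linarith
  linarith

/-! ### the theorem -/

theorem count (h1 : StmtMert) (h2 : StmtBT) (h3 : StmtRec) (h4 : StmtE1) (h5 : StmtE2) : StmtCount := by
  classical
  obtain ⟨C₀, hMert'⟩ := h1
  obtain ⟨C₁, hC₁, hBT⟩ := h2
  obtain ⟨C₂, hC₂, hRec⟩ := h3
  obtain ⟨C₄, hC₄, hE1⟩ := h4
  have hMert : ∀ x : ℕ, 2 ≤ x → |∑ p ∈ PP 1 x, (1 : ℝ) / p - Real.log (Real.log x)| ≤ C₀ :=
    fun x hx => (hMert' x hx).1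
  intro M hM h2M V hV Qs hQs hmass ε hε
  have hA : (0 : ℝ) < 24 / ε := by positivity
  choose nn hnn hev using fun j => hmass j (24 / ε)
  set n : ℕ := nn 0 + nn 1 + nn 2 with hnd
  have hnj : ∀ j, nn j ≤ n := by
    intro j
    fin_cases j <;> simp [hnd] <;> omega
  have hn : 0 < n := lt_of_lt_of_le (hnn 0) (hnj 0)
  have hn' : (0 : ℝ) < n := by exact_mod_cast hn
  obtain ⟨b, hb'⟩ := exists_nat_gt (16 * n / ε)
  have hb0 : (0 : ℝ) < b := lt_of_le_of_lt (by positivity) hb'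
  have hb : 0 < b := by exact_mod_cast hb0
  have hnb : 2 * (n : ℝ) * (1 / b) ≤ ε / 8 := by
    rw [div_lt_iff₀ hε] at hb'
    rw [mul_one_div, div_le_iff₀ hb0]
    nlinarith
  set K : ℝ := C₁ * C₂ ^ 2 * (2 * n) ^ 3 * Real.exp (M + C₀ + 24 * (Real.log (2 * b) + 2 * C₀)) with hK
  have hK0 : 0 < K := by positivity
  have hD := hV.comp (rt_tendsto hb)
  have hlog : Tendsto (fun X : ℕ => Real.log X) atTop atTop :=
    Real.tendsto_log_atTop.comp tendsto_natCast_atTop_atTop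
  filter_upwards [hD.eventually_ge_atTop (Real.log (8 * K / ε)), hlog.eventually_ge_atTop (16 * n * C₄ / ε),
    (rt_tendsto hn).eventually_ge_atTop 2, (rt_tendsto hb).eventually_ge_atTop 2, hev 0, hev 1, hev 2]
    with X x1 x2 x3 x4 x5 x6 x7
  intro S hS
  have hX2 : 2 ≤ X := x3.trans (rt_le n X)
  have hXp : (0 : ℝ) < X := by exact_mod_cast (by omega : 0 < X)
  have hlX : 0 < Real.log X := Real.log_pos (by exact_mod_cast (by omega : 1 < X))
  let T : Fin 3 → Finset ℕ := fun j => (Finset.range (X + 1)).filter fun p => p ∈ Qs j ∧ X < p ^ nn j ∧ p ^ 2 ≤ X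
  have hT : ∀ j p, p ∈ T j ↔ p ∈ Qs j ∧ X < p ^ nn j ∧ p ^ 2 ≤ X := by
    intro j p
    simp only [T, Finset.mem_filter, Finset.mem_range]
    constructor
    · rintro ⟨_, h⟩
      exact h
    · intro h
      refine ⟨?_, h⟩
      have : p ≤ p ^ 2 := Nat.le_self_pow two_ne_zero p
      omega
  have hTA : ∀ j, 24 / ε ≤ ∑ p ∈ T j, (1 : ℝ) / p := by
    intro j
    fin_cases j
    · exact x5 (T 0) (hT 0)
    · exact x6 (T 1) (hT 1)
    · exact x7 (T 2) (hT 2)
  set S₁ := S.filter fun c => X < (md M b X c) ^ (2 * n) with hS₁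
  let E : Fin 3 → Finset ℕ := fun j => S.filter fun c => ∀ p ∈ T j, ¬ p ∣ c
  set S' := S.filter fun c => (md M b X c) ^ (2 * n) ≤ X ∧ ∀ j, ∃ p ∈ T j, p ∣ c with hS'
  have hcov : S ⊆ S₁ ∪ (E 0 ∪ E 1 ∪ E 2) ∪ S' := by
    intro c hc
    by_cases g1 : X < (md M b X c) ^ (2 * n)
    · exact Finset.mem_union_left _ (Finset.mem_union_left _ (Finset.mem_filter.mpr ⟨hc, g1⟩))
    · by_cases g2 : ∀ j, ∃ p ∈ T j, p ∣ c
      · exact Finset.mem_union_right _ (Finset.mem_filter.mpr ⟨hc, not_lt.mp g1, g2⟩)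
      · push Not at g2
        obtain ⟨j, hj⟩ := g2
        have g3 : c ∈ E j := Finset.mem_filter.mpr ⟨hc, hj⟩
        refine Finset.mem_union_left _ (Finset.mem_union_right _ ?_)
        fin_cases j
        · exact Finset.mem_union_left _ (Finset.mem_union_left _ g3)
        · exact Finset.mem_union_left _ (Finset.mem_union_right _ g3)
        · exact Finset.mem_union_right _ g3
  have hcard : (S.card : ℝ) ≤ S₁.card + ((E 0).card + (E 1).card + (E 2).card) + S'.card := by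
    have g1 := Finset.card_le_card hcov
    have g2 : (S₁ ∪ (E 0 ∪ E 1 ∪ E 2) ∪ S').card ≤ S₁.card + ((E 0).card + (E 1).card + (E 2).card) + S'.card := by
      refine (Finset.card_union_le _ _).trans (Nat.add_le_add_right ((Finset.card_union_le _ _).trans ?_) _)
      refine Nat.add_le_add_left ((Finset.card_union_le _ _).trans ?_) _
      exact Nat.add_le_add_right (Finset.card_union_le _ _) _
    exact_mod_cast g1.trans g2
  -- the smooth part
  have e1 : (S₁.card : ℝ) ≤ ε / 4 * X := by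
    have g := hE1 M (2 * n) b X (by omega) hb hX2 S₁ (by
      intro c hc
      obtain ⟨k1, k2⟩ := Finset.mem_filter.mp hc
      exact ⟨(hS c k1).1, (hS c k1).2.1, k2⟩)
    refine g.trans (mul_le_mul_of_nonneg_right ?_ hXp.le)
    have k3 : 2 * (n : ℝ) * (C₄ / Real.log X) ≤ ε / 8 := by
      rw [div_le_iff₀ hε] at x2
      rw [← mul_div_assoc, div_le_iff₀ hlX]
      nlinarith
    push_cast
    calc 2 * (n : ℝ) * (1 / b + C₄ / Real.log X) = 2 * (n : ℝ) * (1 / b) + 2 * (n : ℝ) * (C₄ / Real.log X) := by ring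
      _ ≤ ε / 8 + ε / 8 := add_le_add hnb k3
      _ = ε / 4 := by ring
  -- the missing primes
  have e2 : ∀ j, ((E j).card : ℝ) ≤ ε / 8 * X := by
    intro j
    have hne : (T j).Nonempty := by
      rw [Finset.nonempty_iff_ne_empty]
      intro h
      have := hTA j
      rw [h, Finset.sum_empty] at this
      linarith
    have g := h5 X (T j) (fun p hp => ⟨(hQs j p ((hT j p).mp hp).1).1, ((hT j p).mp hp).2.2⟩) hne (E j) (by
      intro c hc
      obtain ⟨k1, k2⟩ := Finset.mem_filter.mp hc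
      exact ⟨(hS c k1).1, (hS c k1).2.1, k2⟩)
    have k : ((E j).card : ℝ) * (24 / ε) ≤ 3 * X :=
      (mul_le_mul_of_nonneg_left (hTA j) (Nat.cast_nonneg _)).trans g
    have k' : ((E j).card : ℝ) = ((E j).card : ℝ) * (24 / ε) * (ε / 24) := by
      field_simp
    rw [k']
    calc ((E j).card : ℝ) * (24 / ε) * (ε / 24) ≤ 3 * X * (ε / 24) := mul_le_mul_of_nonneg_right k (by positivity)
      _ = ε / 8 * X := by ring
  -- the main part
  have e3 : (S'.card : ℝ) ≤ ε / 8 * X := by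
    have g := main_count hC₁ hC₂ hBT hRec h2M hQs (b := b) hn x3 S' (by
      intro c hc
      obtain ⟨k1, k2, k3⟩ := Finset.mem_filter.mp hc
      obtain ⟨l1, l2, l3, l4⟩ := hS c k1
      choose Q hQ hQc using k3
      refine ⟨l1, l2, l3, l4, k2, Q, fun i => ⟨((hT i _).mp (hQ i)).1, ?_, hQc i⟩⟩
      have m1 := (hQs i _ ((hT i _).mp (hQ i)).1).1.pos
      exact lt_of_lt_of_le ((hT i _).mp (hQ i)).2.1 (Nat.pow_le_pow_right m1 (hnj i)))
    have g1 := euler M b n X V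
    have g2 := ww_sum hMert hM hb V x4
    set D : ℝ := ∑ p ∈ PP M (rt b X), (1 - ((V p).card : ℝ) / 4) / p with hDd
    have g3 : Real.exp (∑ p ∈ (Finset.range (X + 1)).filter Nat.Prime, ww M b X V p) ≤
        Real.exp (M + C₀ + 24 * (Real.log (2 * b) + 2 * C₀)) * Real.log X * Real.exp (-D) := by
      calc _ ≤ Real.exp (M + (Real.log (Real.log X) + C₀ - D) + 24 * (Real.log (2 * b) + 2 * C₀)) :=
            Real.exp_le_exp.mpr g2
        _ = Real.exp ((M + C₀ + 24 * (Real.log (2 * b) + 2 * C₀)) + Real.log (Real.log X) + (-D)) := by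
            congr 1; ring
        _ = _ := by rw [Real.exp_add, Real.exp_add, Real.exp_log hlX]
    have g4 : Real.exp (-D) ≤ ε / (8 * K) := by
      have x1' : Real.log (8 * K / ε) ≤ D := x1
      calc Real.exp (-D) ≤ Real.exp (-Real.log (8 * K / ε)) := Real.exp_le_exp.mpr (by linarith)
        _ = ε / (8 * K) := by
            rw [Real.exp_neg, Real.exp_log (by positivity), inv_div]
    calc (S'.card : ℝ) ≤ C₁ * C₂ ^ 2 * (2 * n) ^ 3 * (X / Real.log X) *
        (Real.exp (M + C₀ + 24 * (Real.log (2 * b) + 2 * C₀)) * Real.log X * Real.exp (-D)) :=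
          g.trans (mul_le_mul_of_nonneg_left (g1.trans g3) (by positivity))
      _ = K * X * Real.exp (-D) := by
          rw [hK]
          field_simp
      _ ≤ K * X * (ε / (8 * K)) := mul_le_mul_of_nonneg_left g4 (by positivity)
      _ = ε / 8 * X := by
          field_simp
  calc (S.card : ℝ) ≤ S₁.card + ((E 0).card + (E 1).card + (E 2).card) + S'.card := hcard
    _ ≤ ε / 4 * X + (ε / 8 * X + ε / 8 * X + ε / 8 * X) + ε / 8 * X :=
        add_le_add (add_le_add e1 (add_le_add (add_le_add (e2 0) (e2 1)) (e2 2))) e3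
    _ ≤ ε * X := by nlinarith [mul_pos hε hXp]

end Pool.Agent.HP
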